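import Pool.Agent.Lib.MP_b538eb_ag.Main

open Pool.Agent.Lib.MP_b538eb_ag

namespace Pool.Agent.Results.MP_b538eb_ag.Cusp

theorem result :
    ∃ (R : Type) (_ : CommRing R) (_ : Algebra ℂ R) (br : R → R → R),
      IsDomain R ∧ Algebra.FiniteType ℂ R ∧ IsPoisson br ∧ ResolvedByPlane br ∧
      ∃ (A : Type) (_ : Ring A) (_ : Algebra (PowerSeries ℂ) A) (π : A →+* R),
        IsQuantization br π ∧
        Submodule.span ℂ {x : R | ∃ f g, x = br f g} ≠ ⊤ ∧
        Submodule.span (LaurentSeries ℂ)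
          {x : TensorProduct (PowerSeries ℂ) (LaurentSeries ℂ) A | ∃ a b, x = a * b - b * a} = ⊤ :=
  ⟨Rr, inferInstance, inferInstance, fun a b => brR a b, inferInstance, finiteType_R, isPoisson, resolved,
    data.A, inferInstance, inferInstance, data.π, data.isQuantization, hp_ne_top, hh_top⟩

end Pool.Agent.Results.MP_b538eb_ag.Cusp
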